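import Pool.Agent.H.MP_b4aa87_al.Low

set_option autoImplicit false

namespace Pool.Agent.Results.MP_40d7e0_al.Depth

def gr : List Bool → Fin 4 → List Bool
  | [], _ => []
  | x :: w, 0 => (!x) :: w
  | false :: w, 1 => false :: gr w 0
  | true :: w, 1 => true :: gr w 2
  | false :: w, 2 => false :: gr w 0
  | true :: w, 2 => true :: gr w 3
  | false :: w, 3 => false :: w
  | true :: w, 3 => true :: gr w 1

def ev (l : List (Fin 4)) (v : List Bool) : List Bool := l.foldr (fun s w => gr w s) v

noncomputable def len (g : List Bool → List Bool) : ℕ :=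
  sInf {n | ∃ l : List (Fin 4), l.length = n ∧ ev l = g}

def Shallow (g : List Bool → List Bool) (n : ℕ) : Prop :=
  ∀ u : List Bool, u.length = n →
    (∀ w, g (u ++ w) = g u ++ w) ∨ ∃ s : Fin 4, ∀ w, g (u ++ w) = g u ++ gr w s

noncomputable def depth (g : List Bool → List Bool) : ℕ := sInf {n | Shallow g n}

open Pool.Agent.H.MP_b4aa87_al

def A : List Bool → L → List Bool
  | [], _ => []
  | x :: v, l => root l x :: A v (so l x)

lemma A_e (v : List Bool) : A v 4 = v := by
  induction v with
  | nil => rfl
  | cons x v ih => cases x <;> simp [A, root, so, ih]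

lemma A_gr (v : List Bool) : ∀ s : Fin 4, A v s.castSucc = gr v s := by
  induction v with
  | nil => intro s; rfl
  | cons x v ih =>
    intro s
    have h0 := ih 0
    have h1 := ih 1
    have h2 := ih 2
    have h3 := ih 3
    have h4 := A_e v
    cases x <;> fin_cases s <;> simp_all [A, gr, root, so]

lemma A_mul (v : List Bool) : ∀ l l' : L, Comp l l' → A (A v l') l = A v (mm l l') := by
  induction v with
  | nil => intro _ _ _; rfl
  | cons x v ih =>
    intro l l' h
    obtain ⟨h1, h2, h3⟩ := tab l l' x h
    simp only [A, ih _ _ h1, h2, h3]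

def E (w : List L) (v : List Bool) : List Bool := w.foldr (fun s u => A u s) v

lemma E_map (l : List (Fin 4)) : E (l.map Fin.castSucc) = ev l := by
  funext v
  induction l with
  | nil => rfl
  | cons s l ih => simp only [E, ev, List.map_cons, List.foldr_cons] at ih ⊢; rw [ih, A_gr]

lemma E_cons (w : List L) (x : Bool) (v : List Bool) :
    E w (x :: v) = rt w x :: E (secs w x) v := by
  induction w with
  | nil => rfl
  | cons l w ih =>
    change A (E w (x :: v)) l = _
    rw [ih]; rfl

lemma E_nil (w : List L) : E w [] = [] := by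
  induction w with
  | nil => rfl
  | cons l w ih => change A (E w []) l = _; rw [ih]; rfl

def ct (w : List L) : ℕ := (w.map fun l => if l = 4 then 0 else 1).sum

lemma ct_cons (l : L) (w : List L) : ct (l :: w) = (if l = 4 then 0 else 1) + ct w := by simp [ct]

lemma red (w : List L) : ∃ u, Alt u ∧ u.length ≤ ct w ∧ E u = E w := by
  induction w with
  | nil => exact ⟨[], trivial, le_rfl, rfl⟩
  | cons l w ih =>
    obtain ⟨u, h1, h2, h3⟩ := ih
    rw [ct_cons]
    have e0 : E (l :: w) = fun v => A (E u v) l := by rw [h3]; rfl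
    by_cases hl : l = 4
    · exact ⟨u, h1, by omega, by rw [e0, hl]; funext v; rw [A_e]⟩
    rw [if_neg hl]
    cases u with
    | nil => exact ⟨[l], hl, by simp, e0.symm⟩
    | cons l' r =>
      simp only [List.length_cons] at h2
      by_cases hc : Comp l l'
      · have e : E (mm l l' :: r) = E (l :: w) := by
          rw [e0]; funext v; exact (A_mul _ _ _ hc).symm
        by_cases hm : mm l l' = 4
        · refine ⟨r, h1.tail, by omega, ?_⟩
          rw [← e, hm]; funext v; exact (A_e _).symm
        · refine ⟨mm l l' :: r, ?_, by simp; omega, e⟩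
          cases r with
          | nil => exact hm
          | cons l'' r =>
            exact ⟨(by decide : ∀ l l' l'' : L, l ≠ 4 → Comp l l' → mm l l' ≠ 4 →
              ¬ Comp l' l'' → ¬ Comp (mm l l') l'') l l' l'' hl hc hm h1.1, h1.2⟩
      · exact ⟨l :: l' :: r, ⟨hc, h1⟩, by simp; omega, e0.symm⟩

lemma half {w : List L} (h : Alt w) (x : Bool) :
    2 * ct (secs w x) ≤ w.length + (if w.head? = some 0 ∨ w = [] then 0 else 1) := by
  induction w with
  | nil => simp [secs, ct]
  | cons l w ih =>
    have ih := ih h.tail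
    rw [secs, ct_cons, List.length_cons]
    by_cases hl : l = 0
    · subst hl
      have : so 0 (rt w x) = 4 := by cases rt w x <;> rfl
      simp only [List.head?_cons, true_or, if_true, this]
      split_ifs at ih <;> omega
    · have h4 : w.head? = some 0 ∨ w = [] := by
        cases w with
        | nil => exact Or.inr rfl
        | cons l' r =>
          left
          by_contra hc
          exact h.1 (Or.inl ⟨fun e => absurd e hl, fun e => absurd (by simp [e]) hc⟩)
      rw [if_pos h4] at ih
      rw [if_neg (show ¬ ((l :: w).head? = some 0 ∨ l :: w = []) by simp [hl])]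
      split_ifs <;> omega

def D (g : List Bool → List Bool) (n : ℕ) : Prop :=
  ∀ u : List Bool, u.length = n → ∃ s : L, ∀ w, g (u ++ w) = g u ++ A w s

lemma D_iff (g : List Bool → List Bool) (n : ℕ) : D g n ↔ Shallow g n := by
  refine forall₂_congr fun u _ => ⟨?_, ?_⟩
  · rintro ⟨s, hs⟩
    induction s using Fin.lastCases with
    | last => exact Or.inl fun w => by rw [hs]; exact congrArg _ (A_e w)
    | cast s => exact Or.inr ⟨s, fun w => by rw [hs, A_gr]⟩
  · rintro (h | ⟨s, h⟩)
    · exact ⟨4, fun w => by rw [h, A_e]⟩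
    · exact ⟨s.castSucc, fun w => by rw [h, A_gr]⟩

lemma D_up (n : ℕ) : ∀ w : List L, 2 * ct w ≤ 2 ^ n + 2 → D (E w) n := by
  induction n with
  | zero =>
    intro w h u hu
    obtain ⟨r, -, h2, h3⟩ := red w
    rw [List.length_eq_zero_iff.1 hu, ← h3, E_nil]
    match r, h2 with
    | [], _ => exact ⟨4, fun v => (A_e v).symm⟩
    | [l], _ => exact ⟨l, fun v => rfl⟩
    | _ :: _ :: _, h2 => simp at h2; omega
  | succ n ih =>
    intro w h u hu
    obtain ⟨r, h1, h2, h3⟩ := red w
    obtain ⟨x, u, rfl⟩ := List.exists_cons_of_length_eq_add_one hu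
    have := half h1 x
    obtain ⟨s, hs⟩ := ih (secs r x) (by rw [pow_succ] at h; split_ifs at this <;> omega) u
      (by simpa using hu)
    exact ⟨s, fun v => by rw [← h3, List.cons_append, E_cons, E_cons, hs]; rfl⟩

lemma D_succ {g : List Bool → List Bool} {n : ℕ} (h : D g n) : D g (n + 1) := by
  intro u hu
  obtain rfl | ⟨u, x, rfl⟩ := u.eq_nil_or_concat'
  · simp at hu
  obtain ⟨s, hs⟩ := h u (by simpa using hu)
  exact ⟨so s x, fun w => by rw [List.append_assoc, hs, hs]; simp [A]⟩

def sg4 (l : List (Fin 4)) : List (Fin 4) := l.flatMap ![[0, 2, 0], [3], [1], [2]]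

lemma ev_sg4 (l : List (Fin 4)) (v : List Bool) : ev (sg4 l) (true :: v) = true :: ev l v := by
  induction l with
  | nil => rfl
  | cons s l ih =>
    have e : ev (sg4 (s :: l)) (true :: v) =
        ev (![[0, 2, 0], [3], [1], [2]] s) (ev (sg4 l) (true :: v)) := by
      simp [sg4, ev, List.foldr_append]
    rw [e, ih]
    fin_cases s <;> rfl

lemma ev_it (n : ℕ) (l : List (Fin 4)) (v : List Bool) :
    ev (sg4^[n] l) (List.replicate n true ++ v) = List.replicate n true ++ ev l v := by
  induction n with
  | zero => rfl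
  | succ n ih => rw [Function.iterate_succ_apply', List.replicate_succ, List.cons_append, ev_sg4, ih]; rfl

lemma cnt (l : List (Fin 4)) : (sg4 l).count 0 = 2 * l.count 0 ∧
    (sg4 l).length = l.length + 2 * l.count 0 := by
  induction l with
  | nil => simp [sg4]
  | cons s l ih =>
    have e : sg4 (s :: l) = ![[0, 2, 0], [3], [1], [2]] s ++ sg4 l := by simp [sg4]
    rw [e, List.count_append, List.length_append, ih.1, ih.2]
    fin_cases s <;> simp <;> omega

lemma cnt_it (n : ℕ) : (sg4^[n] [0, 1]).count 0 = 2 ^ n ∧ (sg4^[n] [0, 1]).length = 2 ^ (n + 1) := by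
  induction n with
  | zero => simp
  | succ n ih =>
    rw [Function.iterate_succ_apply', (cnt _).1, (cnt _).2, ih.1, ih.2]
    constructor <;> ring

lemma up (l : List (Fin 4)) {n : ℕ} (h : 2 * l.length ≤ 2 ^ n) : Shallow (ev l) n := by
  rw [← D_iff, ← E_map]
  apply D_up
  have : ∀ w : List L, ct w ≤ w.length := by
    intro w
    induction w with
    | nil => simp [ct]
    | cons a w ih => rw [ct_cons, List.length_cons]; split_ifs <;> omega
  have := this (l.map Fin.castSucc)
  rw [List.length_map] at this
  omega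

theorem result : (∀ l : List (Fin 4), ∃ n, Shallow (ev l) n) ∧
    IsLeast {lam : ℝ | ∃ c : ℝ, ∀ l : List (Fin 4), ev l ≠ id →
      (depth (ev l) : ℝ) ≤ lam * Real.logb 2 (len (ev l)) + c} 1 := by
  have hne : ∀ l : List (Fin 4), ∃ n, Shallow (ev l) n := fun l =>
    ⟨l.length + 1, up l (by have := Nat.lt_two_pow_self (n := l.length); rw [pow_succ]; omega)⟩
  have hlen : ∀ l : List (Fin 4), ∃ r : List (Fin 4), r.length = len (ev l) ∧ ev r = ev l :=
    fun l => Nat.sInf_mem (s := {n | ∃ r : List (Fin 4), r.length = n ∧ ev r = ev l}) ⟨_, l, rfl, rfl⟩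
  refine ⟨hne, ⟨2, fun l _ => ?_⟩, ?_⟩
  · obtain ⟨r, h1, h2⟩ := hlen l
    have h3 : depth (ev l) ≤ Nat.log 2 (len (ev l)) + 2 := by
      apply Nat.sInf_le
      change Shallow (ev l) _
      rw [← h1, ← h2]
      apply up
      have := Nat.lt_pow_succ_log_self one_lt_two r.length
      rw [pow_succ]
      simp only [Nat.succ_eq_add_one] at this
      omega
    have h4 := Real.natLog_le_logb (len (ev l)) 2
    have h5 : (depth (ev l) : ℝ) ≤ Nat.log 2 (len (ev l)) + 2 := by exact_mod_cast h3
    push_cast at h4
    linarith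
  · rintro lam ⟨c, hc⟩
    by_contra hlam
    push Not at hlam
    obtain ⟨n, hn⟩ := exists_nat_gt (c / (1 - max lam 0))
    have hm : 0 < 1 - max lam 0 := sub_pos.2 (max_lt hlam one_pos)
    rw [div_lt_iff₀ hm] at hn
    set l := sg4^[n] [0, 1] with hl
    have hD : ¬ D (ev l) n := by
      intro h
      obtain ⟨s, hs⟩ := h (List.replicate n true) (by simp)
      have h1 := hs [false, false]
      have h2 := ev_it n [0, 1] []
      rw [List.append_nil] at h2
      rw [hl, ev_it, h2, List.append_assoc, List.append_cancel_left_eq] at h1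
      exact (by decide : ∀ s : L,
        ev [0, 1] [false, false] ≠ ev [0, 1] [] ++ A [false, false] s) s h1
    have hd : n + 1 ≤ depth (ev l) := by
      by_contra hcon
      have h1 : D (ev l) (depth (ev l)) := (D_iff _ _).2 (Nat.sInf_mem (hne l))
      exact hD (Nat.le_induction h1 (fun k _ h => D_succ h) n (by omega))
    have hid : ev l ≠ id := fun e => hD (by rw [e]; exact fun u _ => ⟨4, fun w => by simp [A_e]⟩)
    have h1 := hc l hid
    have h2 : len (ev l) ≤ 2 ^ (n + 1) := Nat.sInf_le ⟨l, (cnt_it n).2, rfl⟩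
    obtain ⟨r, h3, h4⟩ := hlen l
    have h5 : 1 ≤ len (ev l) := by
      rw [← h3]
      cases r with
      | nil => exact absurd h4.symm hid
      | cons _ _ => simp
    have h5' : (1:ℝ) ≤ len (ev l) := by exact_mod_cast h5
    have h6 : 0 ≤ Real.logb 2 (len (ev l)) := Real.logb_nonneg one_lt_two h5'
    have h7 : Real.logb 2 (len (ev l)) ≤ n + 1 := by
      rw [Real.logb_le_iff_le_rpow one_lt_two (by linarith)]
      exact_mod_cast h2
    have h8 : (n:ℝ) + 1 ≤ depth (ev l) := by exact_mod_cast hd
    have h9 := mul_le_mul_of_nonneg_right (le_max_left lam 0) h6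
    have h10 := mul_le_mul_of_nonneg_left h7 (le_max_right lam 0)
    nlinarith

end Pool.Agent.Results.MP_40d7e0_al.Depth
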